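import Pool.Agent.Q51.EB.Stm2
import Pool.Agent.Q198.EL.Low

set_option autoImplicit false

/-! Project EB (helper51), job LOWM: the lower bound for the number of the everywhere locally soluble
superelliptic twists. -/

namespace Pool.Agent.Q26.EB

open Polynomial Finset Pool.Agent.Q51.EB Pool.Agent.Q51.EL Pool.Agent.Q198.EL

theorem lowm (h1 : S_SOLVM) (h2 : Pool.Agent.Q51.EL.S_CH1) (h3 : S_CNTLM) : S_LOWM := by
  classical
  intro f hf m hm D0 hD0s hels
  have hD0 : D0 ≠ 0 := hD0s.ne_zero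
  obtain ⟨W, hW, hDW, hsol⟩ := h1 f hf m hm D0 hD0 hels
  obtain ⟨c0, Y0, hc0, hch⟩ := h2 f hf W hW
  obtain ⟨P, hP⟩ : ∃ P : Set ℕ, P = {q : ℕ | q.Prime ∧ ∃ r : ℤ, (q : ℤ) ∣ f.eval r} := ⟨_, rfl⟩
  have hPm : ∀ q : ℕ, q ∈ P ↔ q.Prime ∧ ∃ r : ℤ, (q : ℤ) ∣ f.eval r := by intro q; rw [hP]; rfl
  obtain ⟨S, hS⟩ : ∃ S : Set ℕ, S = {p : ℕ | p ∈ P ∧ p % W = 1 % W} := ⟨_, rfl⟩
  have hSm : ∀ q : ℕ, q ∈ S ↔ q ∈ P ∧ q % W = 1 % W := by intro q; rw [hS]; rfl
  obtain ⟨c, X0, hc, hcn⟩ := h3 W P S hW (fun p hp => ((hSm p).mp hp).1)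
    (fun p hp => ((hPm p).mp hp).1) (fun p hp => ((hSm p).mp hp).2) ⟨c0, Y0, hc0, fun Y hY => by
      refine (hch Y hY).trans (le_of_eq ?_)
      congr 2
      refine filter_congr fun p hp => ?_
      unfold pr at hp
      rw [mem_filter] at hp
      rw [hSm, hPm]
      tauto⟩
  obtain ⟨M, hM⟩ : ∃ M : ℝ, M = (D0.natAbs : ℝ) := ⟨_, rfl⟩
  have hM1 : 1 ≤ M := by
    rw [hM]; exact_mod_cast Nat.one_le_iff_ne_zero.mpr (Int.natAbs_ne_zero.mpr hD0)
  have hM0 : 0 < M := by linarith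
  refine ⟨c / M * Real.exp (-M), max (M * X0) (M * 3), by positivity, fun X hX => ?_⟩
  have hX1 : M * X0 ≤ X := (le_max_left _ _).trans hX
  have hX2 : M * 3 ≤ X := (le_max_right _ _).trans hX
  have hX3 : 3 ≤ X / M := by rw [le_div_iff₀ hM0]; linarith
  have hX0 : 0 < X := by nlinarith
  have hXM : X / M ≤ X := div_le_self hX0.le hM1
  have h4 := hcn (X / M) (by rw [le_div_iff₀ hM0]; linarith)
  have hlog : 0 < Real.log (X / M) := Real.log_pos (by linarith)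
  have hlog2 : Real.log (X / M) ≤ Real.log X := Real.log_le_log (by linarith) hXM
  have h5 : ∑ q ∈ (pr (X / M)).filter (fun q : ℕ => q ∈ P), (1 : ℝ) / (q : ℝ) = Gf f (X / M) := by
    rw [Gf_eq]
    refine sum_congr (filter_congr fun p hp => ?_) fun _ _ => rfl
    unfold pr at hp
    rw [mem_filter] at hp
    rw [hPm]
    tauto
  rw [h5] at h4
  have h6 := Gf_le f hM1 (by linarith : M ≤ X)
  have h7 : c / M * Real.exp (-M) * X / Real.log X * Real.exp (Gf f X) ≤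
      c * (X / M) / Real.log (X / M) * Real.exp (Gf f (X / M)) := by
    have h8 : Real.exp (Gf f X) ≤ Real.exp (Gf f (X / M)) * Real.exp M := by
      rw [← Real.exp_add]; exact Real.exp_le_exp.mpr h6
    have h9 : Real.exp (-M) * Real.exp M = 1 := by rw [← Real.exp_add]; simp
    calc c / M * Real.exp (-M) * X / Real.log X * Real.exp (Gf f X)
        = (c * (X / M)) / Real.log X * (Real.exp (-M) * Real.exp (Gf f X)) := by ring
      _ ≤ (c * (X / M)) / Real.log (X / M) * (Real.exp (-M) * (Real.exp (Gf f (X / M)) * Real.exp M)) := by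
          gcongr
      _ = (c * (X / M)) / Real.log (X / M) * (Real.exp (Gf f (X / M)) * (Real.exp (-M) * Real.exp M)) := by ring
      _ = _ := by rw [h9, mul_one]
  refine h7.trans (h4.trans ?_)
  -- the injection
  have hfin : {D : ℤ | (D.natAbs : ℝ) ≤ X ∧ Squarefree D ∧ ELSM f m D}.Finite := by
    refine (Set.finite_Icc (-(⌊X⌋₊ : ℤ)) (⌊X⌋₊ : ℤ)).subset fun D hD => ?_
    have h8 : D.natAbs ≤ ⌊X⌋₊ := Nat.le_floor hD.1
    rw [Set.mem_Icc]
    omega
  refine Nat.cast_le.mpr ?_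
  rw [← Set.ncard_coe_finset]
  refine Set.ncard_le_ncard_of_injOn (fun k : ℕ => D0 * (k : ℤ)) (fun k hk => ?_) ?_ hfin
  · rw [Finset.mem_coe, mem_filter, mem_Icc] at hk
    obtain ⟨⟨m1, m2⟩, m3, m4, m5, m6⟩ := hk
    refine ⟨?_, ?_, ?_⟩
    · rw [Int.natAbs_mul, Int.natAbs_natCast, Nat.cast_mul, ← hM]
      have h8 : (k : ℝ) ≤ X / M := (Nat.le_floor_iff (by positivity)).mp m2
      calc M * (k : ℝ) ≤ M * (X / M) := mul_le_mul_of_nonneg_left h8 hM0.le
        _ = X := by field_simp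
    · have hcop : IsCoprime D0 (k : ℤ) := by
        have h8 : IsCoprime (W : ℤ) (k : ℤ) := by
          rw [Nat.isCoprime_iff_coprime]; exact m4.symm
        exact h8.of_isCoprime_of_dvd_left hDW
      rw [squarefree_mul_iff]
      refine ⟨hcop.isRelPrime, hD0s, ?_⟩
      exact_mod_cast (Int.squarefree_natCast.mpr m3)
    · exact hsol k (by omega) m4 m6 fun q hq hqm => ((hPm q).mp (m5 q hq hqm)).2
  · intro k _ k' _ h
    have h8 : D0 * (k : ℤ) = D0 * (k' : ℤ) := h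
    exact_mod_cast mul_left_cancel₀ hD0 h8

end Pool.Agent.Q26.EB
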