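import Pool.Agent.Q270.EB.Stm
import Pool.Agent.Y958.U.Aux2
import Pool.Agent.Y304.U.Pw
import Pool.Agent.Y79.U.Cube
import Pool.Agent.Y105.U.Box
import Pool.Agent.Y500.U.SV
import Pool.Agent.Y904.U.Hav

/-! Project EB, job ONE2: cubes of primes in dense subsets of windows. -/

set_option autoImplicit false

namespace Pool.Agent.Q26.EB

open Finset Filter Pool.Agent.Q270.EA Pool.Agent.Q270.EB
open Pool.Agent.Y958.U (Cu sr cb)

/-- the numbers in the lemma -/
lemma num (m : ℕ) (hm : 1 ≤ m) (N₀ P₀ : ℕ) : ∃ j₀ : ℕ, ∀ j : ℕ, j₀ ≤ j →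
    2 ≤ j ∧ P₀ + 2 ≤ 2 ^ (j - 1) ∧ N₀ ≤ 2 ^ (j - 1) / m + 2 ∧
    (((2 ^ (j - 1) / m + 2 : ℕ)) : ℝ) ≤ 2 * ((2 : ℝ) ^ (j - 1) / m) ∧
    (j : ℝ) * Real.log 2 / 2 ≤ Real.log ((2 ^ (j - 1) / m + 2 : ℕ)) := by
  refine ⟨2 * (N₀ * m + P₀ + 4 * m) + 10, fun j hj => ?_⟩
  have hj2 : N₀ * m + P₀ + 4 * m + j / 2 ≤ j - 1 := by omega
  have hb : ∀ n : ℕ, n < 2 ^ n := fun n => Nat.lt_two_pow_self
  have h2 : N₀ * m + P₀ + 4 * m + j / 2 < 2 ^ (j - 1) := lt_of_le_of_lt hj2 (hb _)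
  have hm0 : (0 : ℝ) < m := by exact_mod_cast hm
  have hNM : N₀ * m ≤ 2 ^ (j - 1) := by omega
  refine ⟨by omega, by omega, ?_, ?_, ?_⟩
  · have : N₀ ≤ 2 ^ (j - 1) / m := by
      rw [Nat.le_div_iff_mul_le (by omega)]
      exact hNM
    omega
  · have h3 : ((2 ^ (j - 1) / m : ℕ) : ℝ) ≤ (2 : ℝ) ^ (j - 1) / m := by
      have := @Nat.cast_div_le ℝ _ _ _ (2 ^ (j - 1)) m
      push_cast at this
      exact this
    have h4 : (2 : ℝ) ≤ (2 : ℝ) ^ (j - 1) / m := by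
      rw [le_div_iff₀ hm0]
      have : 2 * m ≤ 2 ^ (j - 1) := by omega
      exact_mod_cast this
    rw [Nat.cast_add]
    push_cast
    linarith
  · -- `2 ^ (j - 1) / m + 2 ≥ 2 ^ (j / 2)` in the sense of squares
    have h3 : (2 : ℝ) ^ (j - 1) / m ≤ ((2 ^ (j - 1) / m + 2 : ℕ) : ℝ) := by
      rw [div_le_iff₀ hm0]
      have h4 := Nat.lt_div_mul_add (a := 2 ^ (j - 1)) (b := m) (by omega)
      have h5 : 2 ^ (j - 1) ≤ (2 ^ (j - 1) / m + 2) * m := by nlinarith
      exact_mod_cast h5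
    have h6 : (j : ℝ) * Real.log 2 / 2 ≤ Real.log ((2 : ℝ) ^ (j - 1) / m) := by
      rw [Real.log_div (by positivity) hm0.ne', Real.log_pow]
      have h7 : Real.log m ≤ m * Real.log 2 := by
        rw [← Real.log_pow]
        refine Real.log_le_log hm0 ?_
        exact_mod_cast (hb m).le
      have h8 : (j : ℝ) / 2 + m ≤ ((j - 1 : ℕ) : ℝ) := by
        rw [Nat.cast_sub (by omega)]
        have : (2 * m + 10 : ℕ) ≤ j := by
          have : 4 * m ≤ N₀ * m + P₀ + 4 * m := by omega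
          omega
        have h9 : (2 : ℝ) * m + 10 ≤ j := by exact_mod_cast this
        push_cast
        linarith
      have hl2 : 0 < Real.log 2 := Real.log_pos (by norm_num)
      have h10 := mul_le_mul_of_nonneg_right h8 hl2.le
      nlinarith
    refine h6.trans (Real.log_le_log (by positivity) h3)

lemma win (m j s : ℕ) (hm : 1 ≤ m) (hj : 2 ≤ j) (hs : s < m) :
    (Ioc (2 ^ (j - 1) * (m + s) / m)
      ⌊(1 + 1 / (2 * (m : ℝ))) * ((2 ^ (j - 1) * (m + s) / m : ℕ) : ℝ)⌋₊).filter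
      (fun p => p.Prime ∧ p % 1 = 1 % 1) ⊆ Wd m j s := by
  have hm0 : (0 : ℝ) < m := by exact_mod_cast hm
  have hsr : (s : ℝ) + 1 ≤ m := by exact_mod_cast hs
  intro p hp
  rw [mem_filter, mem_Ioc] at hp
  obtain ⟨⟨hp1, hp2⟩, hp3, _⟩ := hp
  unfold Wd PD
  rw [mem_filter, mem_filter, mem_Ioc]
  have hlow : 2 ^ (j - 1) * (m + s) < m * p := by
    rw [mul_comm m p]
    exact (Nat.div_lt_iff_lt_mul (by omega)).1 hp1
  have hup : m * p ≤ 2 ^ (j - 1) * (m + s + 1) := by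
    have h1 : (p : ℝ) ≤ (1 + 1 / (2 * (m : ℝ))) * ((2 ^ (j - 1) * (m + s) / m : ℕ) : ℝ) :=
      (Nat.cast_le.2 hp2).trans (Nat.floor_le (by positivity))
    have h2 : ((2 ^ (j - 1) * (m + s) / m : ℕ) : ℝ) ≤ (2 : ℝ) ^ (j - 1) * (m + s) / m := by
      have := @Nat.cast_div_le ℝ _ _ _ (2 ^ (j - 1) * (m + s)) m
      push_cast at this
      exact this
    have h3 : (p : ℝ) ≤ (1 + 1 / (2 * (m : ℝ))) * ((2 : ℝ) ^ (j - 1) * (m + s) / m) :=
      h1.trans (mul_le_mul_of_nonneg_left h2 (by positivity))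
    have h4 : (m : ℝ) * p ≤ (2 : ℝ) ^ (j - 1) * (m + s + 1) := by
      have h5 : (m : ℝ) * ((1 + 1 / (2 * (m : ℝ))) * ((2 : ℝ) ^ (j - 1) * (m + s) / m)) =
          (2 : ℝ) ^ (j - 1) * ((m + s) + (m + s) / (2 * m)) := by
        field_simp
      have h6 : ((m : ℝ) + s) / (2 * m) ≤ 1 := by
        rw [div_le_one (by positivity)]
        linarith
      have h7 := mul_le_mul_of_nonneg_left h3 hm0.le
      rw [h5] at h7
      refine h7.trans (mul_le_mul_of_nonneg_left (by linarith) (by positivity))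
    exact_mod_cast h4
  have hp2j : 2 ^ j = 2 * 2 ^ (j - 1) := by
    rw [← pow_succ']
    congr 1
    omega
  refine ⟨⟨⟨?_, ?_⟩, hp3⟩, hlow, hup⟩
  · have h1 : m * 2 ^ (j - 1) < m * p := by
      refine lt_of_le_of_lt ?_ hlow
      rw [mul_comm]
      exact Nat.mul_le_mul_left _ (by omega)
    exact lt_of_mul_lt_mul_left h1 (Nat.zero_le _)
  · have h1 : m * p ≤ m * 2 ^ j := by
      refine hup.trans ?_
      rw [hp2j]
      calc 2 ^ (j - 1) * (m + s + 1) ≤ 2 ^ (j - 1) * (2 * m) := Nat.mul_le_mul_left _ (by omega)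
        _ = m * (2 * 2 ^ (j - 1)) := by ring
    exact le_of_mul_le_mul_left h1 (by omega)

theorem t_ONE2 : S_ONE2 := by
  classical
  intro k
  obtain ⟨L, hL, hcb⟩ := cb (Pool.Agent.Y79.U.cube Pool.Agent.Y500.U.sv Pool.Agent.Y904.U.hav)
    Pool.Agent.Y105.U.box k (1 / 64) (by norm_num)
  refine ⟨L, hL, fun G hG m hm => ?_⟩
  obtain ⟨N₀, hN⟩ := hcb 1 le_rfl G hG
  have hm0 : (0 : ℝ) < m := by exact_mod_cast hm
  have hm1 : (1 : ℝ) ≤ m := by exact_mod_cast hm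
  obtain ⟨P₀, hP⟩ := Pool.Agent.Y304.U.pw 1 le_rfl (1 / (2 * (m : ℝ))) (by positivity) (by
    rw [div_lt_one (by positivity)]
    linarith)
  obtain ⟨j₀, hj₀⟩ := num m hm N₀ P₀
  refine ⟨j₀, fun j hj s hs T hT hTc => ?_⟩
  obtain ⟨hj2, hjP, hjN, hNup, hNlog⟩ := hj₀ j hj
  set P : ℕ := 2 ^ (j - 1) * (m + s) / m with hPdef
  set N : ℕ := 2 ^ (j - 1) / m + 2 with hNdef
  have hP2 : 2 ^ (j - 1) ≤ P := by
    rw [hPdef, Nat.le_div_iff_mul_le (by omega)]
    exact Nat.mul_le_mul_left _ (by omega)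
  have hP3 : (2 : ℝ) ^ (j - 1) ≤ P := by exact_mod_cast hP2
  have hWc : (3 / 4 : ℝ) * (1 / (2 * (m : ℝ)) * P / Real.log P) ≤ (Wd m j s).card := by
    have h1 := hP P (by omega)
    rw [Nat.totient_one, Nat.cast_one, one_mul] at h1
    exact h1.trans (Nat.cast_le.2 (card_le_card (win m j s hm hj2 hs)))
  have hmem : ∀ p ∈ T, P < p ∧ p ≤ P + N ∧ p.Prime := by
    intro p hp
    have h1 := hT hp
    unfold Wd PD at h1
    rw [mem_filter, mem_filter] at h1
    obtain ⟨⟨_, h2⟩, h3, h4⟩ := h1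
    refine ⟨?_, ?_, h2⟩
    · rw [hPdef, Nat.div_lt_iff_lt_mul (by omega), mul_comm p m]
      exact h3
    · have h5 : m * p ≤ m * (P + N) := by
        refine h4.trans ?_
        have h6 := Nat.lt_div_mul_add (a := 2 ^ (j - 1) * (m + s)) (b := m) (by omega)
        have h7 := Nat.lt_div_mul_add (a := 2 ^ (j - 1)) (b := m) (by omega)
        rw [← hPdef] at h6
        have h8 : 2 ^ (j - 1) * (m + s + 1) = 2 ^ (j - 1) * (m + s) + 2 ^ (j - 1) := by ring
        rw [h8, hNdef]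
        have h9 : m * (P + (2 ^ (j - 1) / m + 2)) = P * m + (2 ^ (j - 1) / m) * m + 2 * m := by ring
        rw [h9]
        omega
      exact le_of_mul_le_mul_left h5 (by omega)
  set T' : Finset ℤ := T.image (fun p : ℕ => (p : ℤ) - 1) with hT'
  have hinj : Set.InjOn (fun p : ℕ => (p : ℤ) - 1) T := by
    intro p _ p' _ h
    simp only at h
    have : (p : ℤ) = p' := by linarith
    exact_mod_cast this
  have hcardT : T'.card = T.card := card_image_of_injOn hinj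
  obtain ⟨r, l, hl, hω⟩ := hN N hjN ((P : ℤ) - 1) T' (by
    intro x hx
    rw [hT', mem_image] at hx
    obtain ⟨p, hp, rfl⟩ := hx
    obtain ⟨h1, h2, _⟩ := hmem p hp
    rw [mem_Ioc]
    have h1' : (P : ℤ) < p := by exact_mod_cast h1
    have h2' : (p : ℤ) ≤ P + N := by exact_mod_cast h2
    constructor <;> linarith) (by
    intro x hx
    rw [hT', mem_image] at hx
    obtain ⟨p, hp, rfl⟩ := hx
    have h1 : (1 : ℤ) + ((1 : ℕ) : ℤ) * ((p : ℤ) - 1) = p := by push_cast; ring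
    rw [h1, Int.toNat_natCast]
    exact (hmem p hp).2.2) (by
    rw [hcardT, Nat.totient_one, Nat.cast_one]
    have hjr : (2 : ℝ) ≤ j := by exact_mod_cast hj2
    have hl2 : 0 < Real.log 2 := Real.log_pos (by norm_num)
    have hlN : 0 < Real.log N := lt_of_lt_of_le (by positivity) hNlog
    have hP1 : (2 : ℝ) ≤ P := by
      have : 2 ≤ P := by omega
      exact_mod_cast this
    have hP0 : (0 : ℝ) < P := by linarith
    have hlP0 : 0 < Real.log P := Real.log_pos (by linarith)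
    have hPup : (P : ℝ) ≤ 2 ^ j := by
      have : P ≤ 2 ^ j := by
        have hp2j : 2 ^ j = 2 * 2 ^ (j - 1) := by
          rw [← pow_succ']
          congr 1
          omega
        rw [hPdef, hp2j]
        refine Nat.div_le_of_le_mul ?_
        calc 2 ^ (j - 1) * (m + s) ≤ 2 ^ (j - 1) * (2 * m) := Nat.mul_le_mul_left _ (by omega)
          _ = m * (2 * 2 ^ (j - 1)) := by ring
      exact_mod_cast this
    have hlP : Real.log P ≤ j * Real.log 2 := by
      rw [← Real.log_pow]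
      exact Real.log_le_log hP0 hPup
    have hTr : (Wd m j s).card ≤ 2 * (T.card : ℝ) := by exact_mod_cast hTc
    rw [div_le_iff₀ hlN]
    -- the left side
    have hA : (2 : ℝ) ^ (j - 1) / m ≤ P / m := div_le_div_of_nonneg_right hP3 hm0.le
    have hB : (3 / 4 : ℝ) * (1 / (2 * (m : ℝ)) * P / Real.log P) =
        (3 / 8 : ℝ) * (P / m) / Real.log P := by
      field_simp
      norm_num
    have hC : (3 / 16 : ℝ) * (P / m) / Real.log P ≤ T.card := by
      rw [hB] at hWc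
      have : (3 / 16 : ℝ) * (P / m) / Real.log P = ((3 / 8 : ℝ) * (P / m) / Real.log P) / 2 := by ring
      rw [this]
      linarith
    have hD : (3 / 16 : ℝ) * (P / m) ≤ T.card * Real.log P := by
      rwa [div_le_iff₀ hlP0] at hC
    have hE : Real.log P / 2 ≤ Real.log N := by linarith
    have hT0 : (0 : ℝ) ≤ T.card := Nat.cast_nonneg _
    have hF : (T.card : ℝ) * (Real.log P / 2) ≤ T.card * Real.log N :=
      mul_le_mul_of_nonneg_left hE hT0
    have hpos : 0 ≤ (P : ℝ) / m := by positivity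
    have hN2 : (N : ℝ) ≤ 2 * (P / m) := hNup.trans (by linarith)
    norm_num
    linarith)
  refine ⟨r, l, hl, fun η => ?_⟩
  obtain ⟨n₀, hn₀⟩ := hω η
  refine ⟨n₀ + 1, fun ω => ?_⟩
  have h1 := hn₀ ω
  rw [hT', mem_image] at h1
  obtain ⟨p, hp, hpe⟩ := h1
  refine ⟨p, hp, ?_⟩
  unfold sr at hpe
  linarith

end Pool.Agent.Q26.EB
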